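import Pool.Agent.helper45.BR.Spec

/-!
# Module CTR of project br: (MP_af9036_an)

No constant limits inside a periodic component.
-/

set_option autoImplicit false

open Complex Metric Set Filter Topology MeasureTheory MPS Pool.Agent.helper98.ILF
  Pool.Agent.helper16.Multibrot

noncomputable section

namespace BR

lemma CTR_diff (n : ℕ) (c : ℂ) : Differentiable ℂ (fc n c) := by
  unfold fc
  fun_prop

theorem CTR (hNPP : NPP_stmt) : CTR_stmt := by
  intro n c U m u ψ w hn hc hAR hU hm hmaps hu hlim hw hconst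
  obtain ⟨z₀, hz₀, rfl⟩ := hU
  have hUo : IsOpen (connectedComponentIn (interior (filled n c)) z₀) :=
    isOpen_interior.connectedComponentIn
  have hUi : connectedComponentIn (interior (filled n c)) z₀ ⊆ interior (filled n c) :=
    connectedComponentIn_subset _ _
  obtain ⟨ρ, hρ, hball⟩ := Metric.nhds_basis_closedBall.mem_iff.1 (hUo.mem_nhds hw)
  have hunif : TendstoUniformlyOn (fun k => ((fc n c)^[m])^[k]) ψ u (closedBall w ρ) :=
    (tendstoLocallyUniformlyOn_iff_forall_isCompact hUo).1 hlim _ hball
      (isCompact_closedBall w ρ)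
  have h1 := (Metric.tendstoUniformlyOn_iff.1 hunif) (ρ / 4) (by positivity)
  have h2 : ∀ᶠ k in (u : Filter ℕ), 1 ≤ k := hu (eventually_ge_atTop 1)
  obtain ⟨k, hk1, hk2⟩ := (h1.and h2).exists
  set h : ℂ → ℂ := ((fc n c)^[m])^[k] with hh
  have hdiff : Differentiable ℂ h := ((CTR_diff n c).iterate m).iterate k
  have hb : ∀ z ∈ closedBall w ρ, ‖h z - w‖ ≤ ρ / 4 := by
    intro z hz
    have h3 := hk1 z hz
    rw [hconst z (hball hz), dist_comm, dist_eq_norm] at h3
    exact h3.le
  have hsub : ∀ z ∈ closedBall w (ρ / 2), closedBall z (ρ / 2) ⊆ closedBall w ρ := by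
    intro z hz y hy
    rw [mem_closedBall] at hz hy ⊢
    have := dist_triangle y z w
    linarith
  have hder : ∀ z ∈ closedBall w (ρ / 2), ‖deriv h z‖ ≤ 1 / 2 := by
    intro z hz
    have hd : DiffContOnCl ℂ (fun y => h y - w) (ball z (ρ / 2)) :=
      (hdiff.sub_const w).diffContOnCl
    have h4 := Complex.norm_deriv_le_of_forall_mem_sphere_norm_le (by positivity : 0 < ρ / 2) hd
      (fun y hy => hb y (hsub z hz (sphere_subset_closedBall hy)))
    rw [deriv_sub_const] at h4
    refine h4.trans (le_of_eq ?_)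
    field_simp
    norm_num
  have hmt : MapsTo h (closedBall w (ρ / 2)) (closedBall w (ρ / 2)) := by
    intro z hz
    rw [mem_closedBall, dist_eq_norm]
    have := hb z (closedBall_subset_closedBall (by linarith) hz)
    linarith
  have hcon : ContractingWith (1 / 2 : NNReal) (hmt.restrict h _ _) := by
    refine ⟨?_, LipschitzWith.of_dist_le_mul fun x y => ?_⟩
    · rw [← NNReal.coe_lt_coe]
      norm_num
    · have h5 := Convex.norm_image_sub_le_of_norm_deriv_le (fun z _ => hdiff z) hder
        (convex_closedBall w (ρ / 2)) y.2 x.2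
      rw [Subtype.dist_eq, Subtype.dist_eq, dist_eq_norm, dist_eq_norm]
      have h6 : ((1 / 2 : NNReal) : ℝ) = 1 / 2 := by norm_num
      rw [h6]
      exact h5
  obtain ⟨p, hp, hfix, -⟩ := ContractingWith.exists_fixedPoint'
    (isClosed_closedBall (x := w) (ε := ρ / 2)).isComplete hmt hcon
    (mem_closedBall_self (by positivity : 0 ≤ ρ / 2)) (edist_ne_top _ _)
  have hpU := hball (closedBall_subset_closedBall (by linarith : ρ / 2 ≤ ρ) hp)
  have hper : (fc n c)^[m * k] p = p := by
    rw [Function.iterate_mul]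
    exact hfix
  exact hNPP n c hn hc hAR (m * k) p (Nat.mul_pos hm (by omega)) (hUi hpU) hper

end BR
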