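import Pool.Agent.helper45.BR.Spec

/-!
# Module NPP of project br: (MP_af9036_an)

There are no periodic points in the interior of the filled Julia set if all cycles are repelling.
-/

set_option autoImplicit false

open Complex Metric Set Filter Topology MeasureTheory MPS Pool.Agent.helper98.ILF
  Pool.Agent.helper16.Multibrot

noncomputable section

namespace BR

lemma NPP_diff (n : ℕ) (c : ℂ) : Differentiable ℂ (fc n c) := by
  unfold fc
  fun_prop

theorem NPP : NPP_stmt := by
  intro n c _ _ hAR k z hk hz hfix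
  have hrep := hAR k z hk hfix
  obtain ⟨ρ, hρ, hball⟩ := Metric.nhds_basis_closedBall.mem_iff.1
    (mem_interior_iff_mem_nhds.1 hz)
  have hd : HasDerivAt ((fc n c)^[k]) (mlt n k c z) z :=
    (((NPP_diff n c).iterate k) z).hasDerivAt
  have hbd : ∀ j : ℕ, ‖mlt n k c z‖ ^ j ≤ (2 + ‖c‖) / ρ := by
    intro j
    have h1 : HasDerivAt (((fc n c)^[k])^[j]) (mlt n k c z ^ j) z := HasDerivAt.iterate z hd hfix j
    rw [← norm_pow, ← h1.deriv]
    refine Complex.norm_deriv_le_of_forall_mem_sphere_norm_le hρ
      (((NPP_diff n c).iterate k).iterate j).diffContOnCl fun w hw => ?_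
    rw [← Function.iterate_mul]
    exact hball (sphere_subset_closedBall hw) (k * j)
  obtain ⟨j, hj⟩ := (((tendsto_pow_atTop_atTop_of_one_lt hrep).eventually_gt_atTop
    ((2 + ‖c‖) / ρ))).exists
  exact absurd (hbd j) (not_le.2 hj)

end BR
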